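import Mathlib

/-! Definitions for `MP_7aad9f_nt.TypicalMembersAllHeights` (helper17). -/

namespace Pool.Agent.H17.TM

/-- the product of the primes dividing `n` -/
def rad (n : ℕ) : ℕ := ∏ p ∈ n.primeFactors, p

/-- the positive integers `n` which are a member `a`, `b` or `c` of a triple of positive coprime
integers `a + b = c`, of any height, with `rad (abc) ≤ n ^ (2 - δ)` -/
def Bad (δ : ℝ) : Set ℕ :=
  {n | 0 < n ∧ ∃ a b c : ℕ, 0 < a ∧ 0 < b ∧ Nat.Coprime a b ∧ a + b = c ∧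
    (n = a ∨ n = b ∨ n = c) ∧ (rad (a * b * c) : ℝ) ≤ (n : ℝ) ^ (2 - δ)}

end Pool.Agent.H17.TM
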