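import Pool.Agent.H17.TM.Defs
import Pool.Graph.R_seed8.H785R2.ABC.A12
import Pool.Graph.R_seed8.H785R2.ABC.A345
import Pool.Graph.R_pool_sql_team_seeded_707910d6.Results.MP_2ec8a3_nt.PrescribedRadicals

/-! Proof for `MP_7aad9f_nt.TypicalMembersAllHeights` (helper17). -/

set_option autoImplicit false

namespace Pool.Agent.H17.TM

open Finset
open Pool.Agent.Results.MP_2ec8a3_nt

lemma rad_pos (n : ℕ) : 0 < rad n :=
  Finset.prod_pos fun _ hp => (Nat.prime_of_mem_primeFactors hp).pos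

lemma rad_mul {m n : ℕ} (h : Nat.Coprime m n) : rad (m * n) = rad m * rad n := by
  unfold rad
  rw [h.primeFactors_mul, prod_union h.disjoint_primeFactors]

lemma rad_le {n : ℕ} (hn : 0 < n) : rad n ≤ n := Nat.le_of_dvd hn (Nat.prod_primeFactors_dvd n)

/-- pairs of integers with a bound for the product of their radicals -/
lemma pairs_count (ε : ℝ) (hε : 0 < ε) : ∃ D : ℝ, 0 < D ∧ ∀ (Z : ℕ) (P : ℝ), 1 ≤ Z → 0 ≤ P →
    (((Icc 1 Z ×ˢ Icc 1 Z).filter fun q => (rad q.1 : ℝ) * rad q.2 ≤ P).card : ℝ) ≤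
      D * (Z : ℝ) ^ ε * P := by
  classical
  obtain ⟨D₁, hD₁, h₁⟩ := Pool.Agent.H785R2.ABC.stmtA3_of Pool.Agent.H785R2.ABC.stmtA2 (ε / 2) (by positivity)
  obtain ⟨D₂, hD₂, h₂⟩ := Pool.Agent.H785R2.ABC.stmtA4_of
    (Pool.Agent.H785R2.ABC.stmtA3_of Pool.Agent.H785R2.ABC.stmtA2) (ε / 2) (by positivity)
  refine ⟨D₂ * D₁, by positivity, fun Z P hZ hP => ?_⟩
  have hZ0 : (0 : ℝ) < Z := by exact_mod_cast hZ
  have hcov : ((Icc 1 Z ×ˢ Icc 1 Z).filter fun q => (rad q.1 : ℝ) * rad q.2 ≤ P) ⊆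
      (Icc 1 Z).biUnion fun u => ((Icc 1 Z).filter fun v => (rad v : ℝ) ≤ P / rad u).image
        fun v => (u, v) := by
    rintro ⟨u, v⟩ hq
    obtain ⟨a1, a2⟩ := mem_filter.1 hq
    obtain ⟨a3, a4⟩ := mem_product.1 a1
    rw [mem_biUnion]
    refine ⟨u, a3, mem_image.2 ⟨v, mem_filter.2 ⟨a4, ?_⟩, rfl⟩⟩
    have : (0 : ℝ) < rad u := by exact_mod_cast rad_pos u
    rw [le_div_iff₀ this]
    simp only at a2
    linarith
  have h3 := (card_le_card hcov).trans card_biUnion_le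
  have h4 : ∀ u ∈ Icc 1 Z, ((((Icc 1 Z).filter fun v => (rad v : ℝ) ≤ P / rad u).image
      fun v => (u, v)).card : ℝ) ≤ D₂ * (Z : ℝ) ^ (ε / 2) * P * (1 / (rad u : ℝ)) := by
    intro u hu
    have hr : (0 : ℝ) < rad u := by exact_mod_cast rad_pos u
    have h5 := h₂ Z hZ (P / rad u) (by positivity)
    calc ((((Icc 1 Z).filter fun v => (rad v : ℝ) ≤ P / rad u).image fun v => (u, v)).card : ℝ)
        ≤ (((Icc 1 Z).filter fun v => (rad v : ℝ) ≤ P / rad u).card : ℝ) := by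
          exact_mod_cast card_image_le
      _ ≤ D₂ * (Z : ℝ) ^ (ε / 2) * (P / rad u) := h5
      _ = _ := by ring
  have h6 := h₁ Z hZ 1 le_rfl
  have h7 : (Icc 1 Z).filter (fun d => 1 ∣ Pool.Agent.H785R2.ABC.rad d) = Icc 1 Z := by
    refine filter_true_of_mem fun d _ => one_dvd _
  rw [h7] at h6
  calc (((Icc 1 Z ×ˢ Icc 1 Z).filter fun q => (rad q.1 : ℝ) * rad q.2 ≤ P).card : ℝ)
      ≤ ∑ u ∈ Icc 1 Z, ((((Icc 1 Z).filter fun v => (rad v : ℝ) ≤ P / rad u).image
        fun v => (u, v)).card : ℝ) := by exact_mod_cast h3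
    _ ≤ ∑ u ∈ Icc 1 Z, D₂ * (Z : ℝ) ^ (ε / 2) * P * (1 / (rad u : ℝ)) := sum_le_sum h4
    _ = D₂ * (Z : ℝ) ^ (ε / 2) * P * ∑ u ∈ Icc 1 Z, (1 / (rad u : ℝ)) := by rw [mul_sum]
    _ ≤ D₂ * (Z : ℝ) ^ (ε / 2) * P * (D₁ * (Z : ℝ) ^ (ε / 2)) := by
        refine mul_le_mul_of_nonneg_left ?_ (by positivity)
        refine le_trans (le_of_eq rfl) (h6.trans (le_of_eq (by simp)))
    _ = D₂ * D₁ * ((Z : ℝ) ^ (ε / 2) * (Z : ℝ) ^ (ε / 2)) * P := by ring
    _ = _ := by
        rw [← Real.rpow_add hZ0, add_halves]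

/-- the integers `n ≤ N` which are a member of a triple the other two members `u`, `v` of which
satisfy `rad u * rad v ≤ P` -/
lemma members (ε : ℝ) (hε : 0 < ε) : ∃ K : ℝ, 0 < K ∧ ∀ (N : ℕ) (P : ℝ), 1 ≤ N → 1 ≤ P → P ≤ N →
    ∀ S : Finset ℕ, (∀ n ∈ S, 0 < n ∧ n ≤ N ∧ ∃ u v : ℕ, 0 < u ∧ 0 < v ∧ Nat.Coprime u v ∧
      (u + v = n ∨ u + n = v) ∧ (rad u : ℝ) * rad v ≤ P) → (S.card : ℝ) ≤ K * (N : ℝ) ^ ε * P := by
  classical
  obtain ⟨M, C, hM, hC, hex⟩ := PrescribedRadicals.result (ε / 4) (by positivity)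
  have hM0 : (0 : ℝ) < M := by exact_mod_cast hM
  obtain ⟨D₁, hD₁, h₁⟩ := pairs_count ε hε
  obtain ⟨D₂, hD₂, h₂⟩ := pairs_count (ε / (2 * M)) (by positivity)
  obtain ⟨D₃, hD₃, h₃⟩ := pairs_count (ε / 2) (by positivity)
  refine ⟨D₁ + D₂ + C * D₃, by positivity, fun N P hN hP hPN S hS => ?_⟩
  have hN0 : (0 : ℝ) < N := by exact_mod_cast hN
  have hN1 : (1 : ℝ) ≤ N := by exact_mod_cast hN
  obtain ⟨X, hX⟩ : ∃ X, X = N ^ 2 := ⟨_, rfl⟩
  have hX1 : 1 ≤ X := by rw [hX]; exact Nat.pow_pos hN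
  -- three sets of pairs
  obtain ⟨A, hA⟩ : ∃ A, A = (Icc 1 N ×ˢ Icc 1 N).filter fun q : ℕ × ℕ =>
      (rad q.1 : ℝ) * rad q.2 ≤ P := ⟨_, rfl⟩
  obtain ⟨B, hB⟩ : ∃ B, B = (Icc 1 (X ^ M) ×ˢ Icc 1 (X ^ M)).filter fun q : ℕ × ℕ =>
      (rad q.1 : ℝ) * rad q.2 ≤ P := ⟨_, rfl⟩
  obtain ⟨R, hR⟩ : ∃ R, R = (Icc 1 N ×ˢ Icc 1 N).filter fun q : ℕ × ℕ =>
      (rad q.1 : ℝ) * rad q.2 ≤ P := ⟨_, rfl⟩
  have hfin : ∀ q : ℕ × ℕ, ({t | t ∈ PrescribedRadicals.exceptions M X ∧ ∃ i j, i ≠ j ∧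
      PrescribedRadicals.radical (PrescribedRadicals.member t i) = rad q.1 ∧
      PrescribedRadicals.radical (PrescribedRadicals.member t j) = rad q.2} : Set (ℕ × ℕ)).Finite := by
    intro q
    obtain ⟨⟨h4, -⟩, -⟩ := hex X (rad q.1) hX1 (rad_pos _)
    refine h4.subset ?_
    rintro t ⟨g1, i, j, -, g2, -⟩
    exact ⟨g1, i, g2⟩
  have hcov : S ⊆ A.image (fun q => q.1 + q.2) ∪ B.image (fun q => q.2 - q.1) ∪
      R.biUnion (fun q => (hfin q).toFinset.image fun t => t.2) := by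
    intro n hn
    obtain ⟨n1, n2, u, v, u0, v0, huv, hsum, hr⟩ := hS n hn
    rw [mem_union, mem_union]
    rcases hsum with hsum | hsum
    · left; left
      rw [mem_image]
      refine ⟨(u, v), ?_, hsum⟩
      rw [hA, mem_filter, mem_product, mem_Icc, mem_Icc]
      exact ⟨⟨⟨u0, by omega⟩, v0, by omega⟩, hr⟩
    · have hun : Nat.Coprime u n := by
        rw [← hsum] at huv
        simpa using huv
      rcases Nat.lt_or_ge v (rad (u * n * (u + n)) ^ M) with hv | hv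
      · left; right
        rw [mem_image]
        refine ⟨(u, v), ?_, by simp only; omega⟩
        have hnv : Nat.Coprime n v := by
          rw [← hsum]
          simpa using hun.symm
        have hrX : rad (u * n * (u + n)) ≤ X := by
          have e1 : rad (u * n * (u + n)) = rad n * (rad u * rad v) := by
            rw [hsum, rad_mul (Nat.Coprime.mul_left huv hnv), rad_mul hun]
            ring
          rw [e1, hX, pow_two]
          refine Nat.mul_le_mul ((rad_le n1).trans n2) ?_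
          have : ((rad u * rad v : ℕ) : ℝ) ≤ N := by
            push_cast
            exact hr.trans hPN
          exact_mod_cast this
        have hvX : v ≤ X ^ M := hv.le.trans (Nat.pow_le_pow_left hrX M)
        rw [hB, mem_filter, mem_product, mem_Icc, mem_Icc]
        exact ⟨⟨⟨u0, by omega⟩, v0, hvX⟩, hr⟩
      · right
        rw [mem_biUnion]
        have hru : (rad u : ℝ) ≤ N := by
          have : (1 : ℝ) ≤ rad v := by exact_mod_cast rad_pos v
          nlinarith [(by positivity : (0 : ℝ) ≤ rad u)]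
        have hrv : (rad v : ℝ) ≤ N := by
          have : (1 : ℝ) ≤ rad u := by exact_mod_cast rad_pos u
          nlinarith [(by positivity : (0 : ℝ) ≤ rad v)]
        have hrr : ∀ m : ℕ, rad (rad m) = rad m := by
          intro m
          show ∏ p ∈ (∏ p ∈ m.primeFactors, p).primeFactors, p = _
          rw [Nat.primeFactors_prod fun p hp => Nat.prime_of_mem_primeFactors hp]
          rfl
        refine ⟨(rad u, rad v), ?_, ?_⟩
        · rw [hR, mem_filter, mem_product, mem_Icc, mem_Icc]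
          refine ⟨⟨⟨rad_pos _, by exact_mod_cast hru⟩, rad_pos _, by exact_mod_cast hrv⟩, ?_⟩
          simp only [hrr]
          exact hr
        · rw [mem_image]
          refine ⟨(u, n), ?_, rfl⟩
          rw [Set.Finite.mem_toFinset]
          have hnv : Nat.Coprime n v := by
            rw [← hsum]
            simpa using hun.symm
          refine ⟨⟨⟨u0, n1, hun⟩, ?_, ?_⟩, 0, 2, by decide, ?_, ?_⟩
          · show rad (u * n * (u + n)) ≤ X
            have e1 : rad (u * n * (u + n)) = rad n * (rad u * rad v) := by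
              rw [hsum, rad_mul (Nat.Coprime.mul_left huv hnv), rad_mul hun]
              ring
            rw [e1, hX, pow_two]
            refine Nat.mul_le_mul ((rad_le n1).trans n2) ?_
            have : ((rad u * rad v : ℕ) : ℝ) ≤ N := by
              push_cast
              exact hr.trans hPN
            exact_mod_cast this
          · show rad (u * n * (u + n)) ^ M ≤ u + n
            rw [hsum] at hv ⊢
            exact hv
          · simp only [hrr]
            rfl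
          · simp only [hrr]
            show rad (u + n) = rad v
            rw [hsum]
  have hA' : (A.card : ℝ) ≤ D₁ * (N : ℝ) ^ ε * P := by
    rw [hA]
    exact h₁ N P hN (by linarith)
  have hB' : (B.card : ℝ) ≤ D₂ * (N : ℝ) ^ ε * P := by
    rw [hB]
    refine (h₂ (X ^ M) P (Nat.pow_pos hX1) (by linarith)).trans (le_of_eq ?_)
    rw [hX]
    push_cast
    rw [← pow_mul, ← Real.rpow_natCast, ← Real.rpow_mul hN0.le]
    congr 3
    push_cast
    field_simp
  have hR' : (R.card : ℝ) ≤ D₃ * (N : ℝ) ^ (ε / 2) * P := by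
    rw [hR]
    exact h₃ N P hN (by linarith)
  have hE : ((R.biUnion (fun q => (hfin q).toFinset.image fun t => t.2)).card : ℝ) ≤
      C * D₃ * (N : ℝ) ^ ε * P := by
    have h5 : (R.biUnion (fun q => (hfin q).toFinset.image fun t => t.2)).card ≤
        ∑ q ∈ R, ((hfin q).toFinset.image fun t : ℕ × ℕ => t.2).card := card_biUnion_le
    calc ((R.biUnion (fun q => (hfin q).toFinset.image fun t => t.2)).card : ℝ)
        ≤ ∑ q ∈ R, (((hfin q).toFinset.image fun t : ℕ × ℕ => t.2).card : ℝ) := by exact_mod_cast h5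
      _ ≤ ∑ q ∈ R, C * (X : ℝ) ^ (ε / 4) := by
          refine sum_le_sum fun q _ => ?_
          have h6 := (hex X (rad q.1) hX1 (rad_pos _)).2.2 (rad q.2) (rad_pos _)
          refine le_trans ?_ h6
          rw [Set.ncard_eq_toFinset_card _ (hfin q)]
          exact_mod_cast card_image_le
      _ = (R.card : ℝ) * (C * (N : ℝ) ^ (ε / 2)) := by
          rw [sum_const, nsmul_eq_mul, hX]
          push_cast
          rw [← Real.rpow_natCast, ← Real.rpow_mul hN0.le]
          congr 3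
          push_cast
          ring
      _ ≤ (D₃ * (N : ℝ) ^ (ε / 2) * P) * (C * (N : ℝ) ^ (ε / 2)) :=
          mul_le_mul_of_nonneg_right hR' (by positivity)
      _ = C * D₃ * ((N : ℝ) ^ (ε / 2) * (N : ℝ) ^ (ε / 2)) * P := by ring
      _ = _ := by rw [← Real.rpow_add hN0, add_halves]
  have h8 := card_le_card hcov
  have h9 := h8.trans ((card_union_le _ _).trans (Nat.add_le_add_right (card_union_le _ _) _))
  have h10 : (S.card : ℝ) ≤ A.card + B.card +
      (R.biUnion (fun q => (hfin q).toFinset.image fun t => t.2)).card := by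
    have h11 : (A.image (fun q => q.1 + q.2)).card ≤ A.card := card_image_le
    have h12 : (B.image (fun q => q.2 - q.1)).card ≤ B.card := card_image_le
    exact_mod_cast h9.trans (Nat.add_le_add_right (Nat.add_le_add h11 h12) _)
  calc (S.card : ℝ) ≤ A.card + B.card +
      (R.biUnion (fun q => (hfin q).toFinset.image fun t => t.2)).card := h10
    _ ≤ D₁ * (N : ℝ) ^ ε * P + D₂ * (N : ℝ) ^ ε * P + C * D₃ * (N : ℝ) ^ ε * P := by linarith
    _ = _ := by ring

theorem main (δ ε : ℝ) (hδ : 0 ≤ δ) (hδ2 : δ ≤ 2) (hε : 0 < ε) : ∃ K : ℝ, 0 < K ∧ ∀ N : ℕ, 1 ≤ N →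
    ({n | n ∈ Bad δ ∧ n ≤ N}.ncard : ℝ) ≤ K * (N : ℝ) ^ (1 - δ / 2 + ε) := by
  classical
  obtain ⟨K, hK, hmem⟩ := members ε hε
  obtain ⟨D, hD, hrad⟩ := Pool.Agent.H785R2.ABC.stmtA4_of
    (Pool.Agent.H785R2.ABC.stmtA3_of Pool.Agent.H785R2.ABC.stmtA2) ε hε
  refine ⟨K + D, by positivity, fun N hN => ?_⟩
  have hN1 : (1 : ℝ) ≤ N := by exact_mod_cast hN
  have hN0 : (0 : ℝ) < N := by linarith
  obtain ⟨P, hP⟩ : ∃ P : ℝ, P = (N : ℝ) ^ (1 - δ / 2) := ⟨_, rfl⟩
  have hP1 : 1 ≤ P := by rw [hP]; exact Real.one_le_rpow hN1 (by linarith)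
  have hPN : P ≤ N := by
    rw [hP]
    calc (N : ℝ) ^ (1 - δ / 2) ≤ (N : ℝ) ^ (1 : ℝ) :=
          Real.rpow_le_rpow_of_exponent_le hN1 (by linarith)
      _ = N := Real.rpow_one _
  obtain ⟨S, hS⟩ : ∃ S, S = (Icc 1 N).filter fun n => n ∈ Bad δ := ⟨_, rfl⟩
  have hset : ({n | n ∈ Bad δ ∧ n ≤ N} : Set ℕ) = S := by
    ext n
    rw [hS, coe_filter]
    simp only [Set.mem_ofPred_eq, mem_Icc]
    constructor
    · rintro ⟨h1, h2⟩
      exact ⟨⟨h1.1, h2⟩, h1⟩
    · rintro ⟨⟨-, h2⟩, h1⟩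
      exact ⟨h1, h2⟩
  rw [hset, Set.ncard_coe_finset]
  have h1 : (((S.filter fun n => ¬ (rad n : ℝ) ≤ P)).card : ℝ) ≤ K * (N : ℝ) ^ ε * P := by
    refine hmem N P hN hP1 hPN _ ?_
    intro n hn
    obtain ⟨a1, a2⟩ := mem_filter.1 hn
    rw [hS] at a1
    obtain ⟨a3, h4, a, b, c, h5, h6, h7, h8, h9, h10⟩ := mem_filter.1 a1
    have hnN := (mem_Icc.1 a3).2
    subst h8
    have hac : Nat.Coprime a (a + b) := by simpa using h7
    have hbc : Nat.Coprime b (a + b) := by simpa using h7.symm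
    have e : rad (a * b * (a + b)) = rad a * rad b * rad (a + b) := by
      rw [rad_mul (Nat.Coprime.mul_left hac hbc), rad_mul h7]
    rw [e] at h10
    push_cast at h10
    have hNP : (N : ℝ) ^ (2 - δ) = P * P := by
      rw [hP, ← Real.rpow_add hN0]
      congr 1
      ring
    have h11 : (rad a : ℝ) * rad b * rad (a + b) ≤ P * P := by
      rw [← hNP]
      refine h10.trans (Real.rpow_le_rpow (Nat.cast_nonneg _) (by exact_mod_cast hnN) (by linarith))
    have ra : (0 : ℝ) < rad a := by exact_mod_cast rad_pos a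
    have rb : (0 : ℝ) < rad b := by exact_mod_cast rad_pos b
    have rc : (0 : ℝ) < rad (a + b) := by exact_mod_cast rad_pos (a + b)
    have hP0 : 0 < P := by linarith
    push Not at a2
    refine ⟨h4, hnN, ?_⟩
    rcases h9 with rfl | rfl | rfl
    · refine ⟨b, n + b, h6, by omega, hbc, Or.inr (by omega), ?_⟩
      by_contra hcon
      push Not at hcon
      nlinarith [mul_lt_mul'' a2 hcon hP0.le hP0.le]
    · refine ⟨a, a + n, h5, by omega, hac, Or.inr rfl, ?_⟩
      by_contra hcon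
      push Not at hcon
      nlinarith [mul_lt_mul'' a2 hcon hP0.le hP0.le]
    · refine ⟨a, b, h5, h6, h7, Or.inl rfl, ?_⟩
      by_contra hcon
      push Not at hcon
      nlinarith [mul_lt_mul'' a2 hcon hP0.le hP0.le]
  have h2 : (((S.filter fun n => (rad n : ℝ) ≤ P)).card : ℝ) ≤ D * (N : ℝ) ^ ε * P := by
    refine le_trans ?_ (hrad N hN P (by linarith))
    have : (S.filter fun n => (rad n : ℝ) ≤ P) ⊆
        (Icc 1 N).filter fun d => (Pool.Agent.H785R2.ABC.rad d : ℝ) ≤ P := by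
      intro n hn
      obtain ⟨a1, a2⟩ := mem_filter.1 hn
      rw [hS] at a1
      exact mem_filter.2 ⟨(mem_filter.1 a1).1, a2⟩
    exact_mod_cast card_le_card this
  have h3 := card_filter_add_card_filter_not (s := S) (fun n => (rad n : ℝ) ≤ P)
  have h4 : (S.card : ℝ) = ((S.filter fun n => (rad n : ℝ) ≤ P)).card +
      ((S.filter fun n => ¬ (rad n : ℝ) ≤ P)).card := by exact_mod_cast h3.symm
  calc (S.card : ℝ) ≤ D * (N : ℝ) ^ ε * P + K * (N : ℝ) ^ ε * P := by
        rw [h4]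
        exact add_le_add h2 h1
    _ = (K + D) * ((N : ℝ) ^ ε * (N : ℝ) ^ (1 - δ / 2)) := by rw [hP]; ring
    _ = (K + D) * (N : ℝ) ^ (1 - δ / 2 + ε) := by
        rw [← Real.rpow_add hN0]
        congr 2
        ring

end Pool.Agent.H17.TM
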